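import Pool.Agent.Helper80.Stack.Goals

set_option autoImplicit false

/-!
# A Sperner lemma for regions
-/

namespace Pool.Agent.Helper10.Stk

open Classical Pool.Agent.Helper80.Stk

/-- number of changes between the colours `0` and `1` -/
def ps (x y : Fin 3) : ZMod 2 :=
  (if x = 0 ∧ y = 1 then 1 else 0) + (if y = 0 ∧ x = 1 then 1 else 0)

/-- number of changes along a list of colours -/
def Ps : List (Fin 3) → ZMod 2
  | [] => 0
  | [_] => 0
  | x :: y :: l => ps x y + Ps (y :: l)

section
variable {W Tr : Type} [Fintype W] (f : W → Fin 3)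

/-- the number of ordered edges from colour `0` to colour `1` -/
noncomputable def Phi (C : W → W → ZMod 2) : ZMod 2 :=
  ∑ u, ∑ v, (if f u = 0 ∧ f v = 1 then C u v else 0)

theorem Phi_add (C C' : W → W → ZMod 2) : Phi f (C + C') = Phi f C + Phi f C' := by
  unfold Phi
  rw [← Finset.sum_add_distrib]
  refine Finset.sum_congr rfl fun u _ => ?_
  rw [← Finset.sum_add_distrib]
  refine Finset.sum_congr rfl fun v _ => ?_
  by_cases h : f u = 0 ∧ f v = 1
  · rw [if_pos h, if_pos h, if_pos h]; rfl
  · rw [if_neg h, if_neg h, if_neg h, add_zero]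

theorem Phi_zero : Phi f (0 : W → W → ZMod 2) = 0 := by
  unfold Phi
  simp

theorem Phi_edg (x y : W) : Phi f (edg x y) = ps (f x) (f y) := by
  by_cases hxy : x = y
  · subst hxy
    rw [edg_self, Phi_zero]
    unfold ps
    generalize f x = a
    revert a
    decide
  · have h1 : ∀ u v, (if f u = 0 ∧ f v = 1 then edg x y u v else 0) =
        (if u = x then (if v = y then (if f x = 0 ∧ f y = 1 then (1 : ZMod 2) else 0) else 0) else 0) +
        (if u = y then (if v = x then (if f y = 0 ∧ f x = 1 then (1 : ZMod 2) else 0) else 0) else 0) := by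
      intro u v
      have hyx : ¬ y = x := fun h => hxy h.symm
      unfold edg
      by_cases h1 : u = x
      · subst h1
        by_cases h3 : v = y
        · subst h3
          simp [hxy]
        · simp [hxy, h3]
      · by_cases h2 : u = y
        · subst h2
          by_cases h3 : v = x
          · subst h3
            simp [hxy, hyx]
          · simp [hyx, h3]
        · simp [h1, h2]
    unfold Phi ps
    simp_rw [h1, Finset.sum_add_distrib]
    simp

theorem Phi_pth (l : List W) : Phi f (pth l) = Ps (l.map f) := by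
  induction l with
  | nil => exact Phi_zero f
  | cons x l ih =>
    cases l with
    | nil => exact Phi_zero f
    | cons y l =>
      rw [pth_cons, Phi_add, Phi_edg, ih]
      rfl

theorem Phi_bd (vt : Tr → Finset W) (h3 : ∀ t, (vt t).card = 3) (S : Finset Tr)
    (h : ∀ τ ∈ S, ∀ x ∈ vt τ, ∀ y ∈ vt τ, ∀ z ∈ vt τ, ¬ (f x = 0 ∧ f y = 1 ∧ f z = 2)) :
    Phi f (bd vt S) = 0 := by
  induction S using Finset.induction_on with
  | empty => rw [bd_empty, Phi_zero]
  | insert t S ht ih =>
    have h1 : bd vt (insert t S) = bd vt {t} + bd vt S := by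
      rw [← bd_union vt (Finset.disjoint_singleton_left.2 ht)]
      rfl
    rw [h1, Phi_add, ih fun τ hτ => h τ (Finset.mem_insert_of_mem hτ), add_zero]
    obtain ⟨x, y, z, hxy, hxz, hyz, hvt⟩ := Finset.card_eq_three.mp (h3 t)
    rw [bd_single vt hvt hxy hyz hxz, Phi_add, Phi_add, Phi_edg, Phi_edg, Phi_edg]
    have h2 := h t (Finset.mem_insert_self _ _)
    rw [hvt] at h2
    have hx : x ∈ ({x, y, z} : Finset W) := by simp
    have hy : y ∈ ({x, y, z} : Finset W) := by simp
    have hz : z ∈ ({x, y, z} : Finset W) := by simp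
    have e1 := h2 x hx y hy z hz
    have e2 := h2 x hx z hz y hy
    have e3 := h2 y hy x hx z hz
    have e4 := h2 y hy z hz x hx
    have e5 := h2 z hz x hx y hy
    have e6 := h2 z hz y hy x hx
    revert e1 e2 e3 e4 e5 e6
    generalize f x = a
    generalize f y = b
    generalize f z = c
    unfold ps
    revert a b c
    decide

end

theorem Ps2 (n : ℕ) : Ps (List.replicate (n + 1) 2 ++ [0]) = 0 := by
  induction n with
  | zero => rfl
  | succ n ih =>
    have : Ps (List.replicate (n + 1 + 1) 2 ++ [0]) =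
      ps 2 2 + Ps (List.replicate (n + 1) 2 ++ [0]) := rfl
    rw [this, ih]
    rfl

theorem Ps1 (n : ℕ) (l : List (Fin 3)) : Ps (List.replicate (n + 1) 1 ++ 2 :: l) = Ps (2 :: l) := by
  induction n with
  | zero =>
    have : Ps (List.replicate (0 + 1) 1 ++ 2 :: l) = ps 1 2 + Ps (2 :: l) := rfl
    rw [this]
    have h : ps 1 2 = 0 := rfl
    rw [h, zero_add]
  | succ n ih =>
    have : Ps (List.replicate (n + 1 + 1) 1 ++ 2 :: l) =
      ps 1 1 + Ps (List.replicate (n + 1) 1 ++ 2 :: l) := rfl
    rw [this, ih]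
    have h : ps 1 1 = 0 := rfl
    rw [h, zero_add]

theorem Ps0 (n : ℕ) (l : List (Fin 3)) :
    Ps (List.replicate (n + 1) 0 ++ 1 :: l) = 1 + Ps (1 :: l) := by
  induction n with
  | zero =>
    have : Ps (List.replicate (0 + 1) 0 ++ 1 :: l) = ps 0 1 + Ps (1 :: l) := rfl
    rw [this]
    rfl
  | succ n ih =>
    have : Ps (List.replicate (n + 1 + 1) 0 ++ 1 :: l) =
      ps 0 0 + Ps (List.replicate (n + 1) 0 ++ 1 :: l) := rfl
    rw [this, ih]
    have h : ps 0 0 = 0 := rfl
    rw [h, zero_add]

theorem map_rep {W : Type} (f : W → Fin 3) (c : Fin 3) (a : List W) (ha : a ≠ [])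
    (h : ∀ v ∈ a, f v = c) : ∃ n, a.map f = List.replicate (n + 1) c := by
  refine ⟨a.length - 1, ?_⟩
  have hl : a.length ≠ 0 := fun h0 => ha (List.length_eq_zero_iff.1 h0)
  rw [List.eq_replicate_iff]
  constructor
  · rw [List.length_map]; omega
  · intro b hb
    obtain ⟨v, hv, rfl⟩ := List.mem_map.1 hb
    exact h v hv

theorem pf_Sperner : StmtSperner := by
  intro W Tr _ _ vt S a b c f h3 _ ha hb hc hbd fa fb fc
  by_contra hcon
  have h0 : Phi f (bd vt S) = 0 := by
    refine Phi_bd f vt h3 S fun τ hτ x hx y hy z hz hh => hcon ?_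
    exact ⟨τ, hτ, x, hx, y, hy, z, hz, hh⟩
  rw [hbd] at h0
  obtain ⟨x, a', rfl⟩ := List.exists_cons_of_ne_nil ha
  have h1 : cyc (x :: a' ++ b ++ c) = pth ((x :: a') ++ (b ++ (c ++ [x]))) := by
    have : x :: a' ++ b ++ c = x :: (a' ++ b ++ c) := rfl
    rw [this, cyc_cons]
    simp
  rw [h1, Phi_pth, List.map_append, List.map_append, List.map_append] at h0
  obtain ⟨k, hk⟩ := map_rep f 0 (x :: a') ha fa
  obtain ⟨l, hl⟩ := map_rep f 1 b hb fb
  obtain ⟨m, hm⟩ := map_rep f 2 c hc fc
  have hx : f x = 0 := fa x (by simp)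
  rw [hk, hl, hm] at h0
  simp only [List.map_cons, List.map_nil, hx] at h0
  have e1 : List.replicate (l + 1) (1 : Fin 3) ++ (List.replicate (m + 1) 2 ++ [0]) =
      1 :: (List.replicate l 1 ++ (List.replicate (m + 1) 2 ++ [0])) := rfl
  have e2 : List.replicate (m + 1) (2 : Fin 3) ++ [0] = 2 :: (List.replicate m 2 ++ [0]) := rfl
  rw [e1, Ps0, ← e1, e2, Ps1, ← e2, Ps2] at h0
  revert h0
  decide

end Pool.Agent.Helper10.Stk
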