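import Pool.Agent.Helper80.Stack.Goals

set_option autoImplicit false
set_option linter.unusedSectionVars false

/-!
# The edges of the triangulation of a plane map
-/

namespace Pool.Agent.Helper10.Stk

open Classical Pool.Agent.Helper80.Stk

section
variable {V D : Type} [Fintype D] (P : PMap V D)

theorem tv0 (s : D) : triVt P (s, 0) = {wV P (P.o s), wV P (P.o (P.α s)), wD P (P.φ s)} := rfl

theorem tv1 (s : D) : triVt P (s, 1) = {wV P (P.o s), wD P (P.φ s), wD P s} := rfl

theorem tv2 (s : D) : triVt P (s, 2) = {wD P s, wD P (P.φ s), wF P s} := rfl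

theorem V_inj (a b : V) : wV P a = wV P b ↔ a = b := by
  constructor
  · intro h; exact Sum.inl_injective h
  · rintro rfl; rfl

theorem D_inj (a b : D) : wD P a = wD P b ↔ a = b := by
  constructor
  · intro h; exact Sum.inl_injective (Sum.inr_injective h)
  · rintro rfl; rfl

theorem F_eq (a b : D) : wF P a = wF P b ↔ P.φ.SameCycle a b := by
  constructor
  · intro h
    exact Quotient.exact (s := Equiv.Perm.SameCycle.setoid P.φ)
      (Sum.inr_injective (Sum.inr_injective h))
  · intro h
    have : (Quotient.mk (Equiv.Perm.SameCycle.setoid P.φ) a) = Quotient.mk _ b := Quotient.sound h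
    show (Sum.inr (Sum.inr _) : TW P) = Sum.inr (Sum.inr _)
    rw [this]

theorem VD (a : V) (b : D) : wV P a ≠ wD P b := fun h => Sum.inl_ne_inr h
theorem VF (a : V) (b : D) : wV P a ≠ wF P b := fun h => Sum.inl_ne_inr h
theorem DF (a b : D) : wD P a ≠ wF P b := fun h => Sum.inl_ne_inr (Sum.inr_injective h)

theorem mV0 (v : V) (s : D) : wV P v ∈ triVt P (s, 0) ↔ v = P.o s ∨ v = P.o (P.α s) := by
  rw [tv0]
  simp only [Finset.mem_insert, Finset.mem_singleton, V_inj]
  constructor
  · rintro (h | h | h)
    · exact Or.inl h
    · exact Or.inr h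
    · exact absurd h (VD P _ _)
  · rintro (h | h)
    · exact Or.inl h
    · exact Or.inr (Or.inl h)

theorem mV1 (v : V) (s : D) : wV P v ∈ triVt P (s, 1) ↔ v = P.o s := by
  rw [tv1]
  simp only [Finset.mem_insert, Finset.mem_singleton, V_inj]
  constructor
  · rintro (h | h | h)
    · exact h
    · exact absurd h (VD P _ _)
    · exact absurd h (VD P _ _)
  · exact Or.inl

theorem mV2 (v : V) (s : D) : ¬ wV P v ∈ triVt P (s, 2) := by
  rw [tv2]
  simp only [Finset.mem_insert, Finset.mem_singleton]
  rintro (h | h | h)
  · exact absurd h (VD P _ _)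
  · exact absurd h (VD P _ _)
  · exact absurd h (VF P _ _)

theorem mD0 (d s : D) : wD P d ∈ triVt P (s, 0) ↔ d = P.φ s := by
  rw [tv0]
  simp only [Finset.mem_insert, Finset.mem_singleton, D_inj]
  constructor
  · rintro (h | h | h)
    · exact absurd h.symm (VD P _ _)
    · exact absurd h.symm (VD P _ _)
    · exact h
  · intro h; exact Or.inr (Or.inr h)

theorem mD1 (d s : D) : wD P d ∈ triVt P (s, 1) ↔ d = P.φ s ∨ d = s := by
  rw [tv1]
  simp only [Finset.mem_insert, Finset.mem_singleton, D_inj]
  constructor
  · rintro (h | h)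
    · exact absurd h.symm (VD P _ _)
    · exact h
  · exact Or.inr

theorem mD2 (d s : D) : wD P d ∈ triVt P (s, 2) ↔ d = s ∨ d = P.φ s := by
  rw [tv2]
  simp only [Finset.mem_insert, Finset.mem_singleton, D_inj]
  constructor
  · rintro (h | h | h)
    · exact Or.inl h
    · exact Or.inr h
    · exact absurd h (DF P _ _)
  · rintro (h | h)
    · exact Or.inl h
    · exact Or.inr (Or.inl h)

theorem mF0 (d s : D) : ¬ wF P d ∈ triVt P (s, 0) := by
  rw [tv0]
  simp only [Finset.mem_insert, Finset.mem_singleton]
  rintro (h | h | h)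
  · exact absurd h.symm (VF P _ _)
  · exact absurd h.symm (VF P _ _)
  · exact absurd h.symm (DF P _ _)

theorem mF1 (d s : D) : ¬ wF P d ∈ triVt P (s, 1) := by
  rw [tv1]
  simp only [Finset.mem_insert, Finset.mem_singleton]
  rintro (h | h | h)
  · exact absurd h.symm (VF P _ _)
  · exact absurd h.symm (DF P _ _)
  · exact absurd h.symm (DF P _ _)

theorem mF2 (d s : D) : wF P d ∈ triVt P (s, 2) ↔ P.φ.SameCycle d s := by
  rw [tv2]
  simp only [Finset.mem_insert, Finset.mem_singleton, F_eq]
  constructor
  · rintro (h | h | h)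
    · exact absurd h.symm (DF P _ _)
    · exact absurd h.symm (DF P _ _)
    · exact h
  · intro h; exact Or.inr (Or.inr h)

theorem phi_ne (d : D) : P.φ d ≠ d := by
  intro h
  have := P.oφ d
  rw [h] at this
  exact P.noloop d this.symm

theorem p01 (s t : D) : ((s, 0) : D × Fin 3) = (t, 1) ↔ False := by simp
theorem p02 (s t : D) : ((s, 0) : D × Fin 3) = (t, 2) ↔ False := by simp
theorem p10 (s t : D) : ((s, 1) : D × Fin 3) = (t, 0) ↔ False := by simp
theorem p12 (s t : D) : ((s, 1) : D × Fin 3) = (t, 2) ↔ False := by simp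
theorem p20 (s t : D) : ((s, 2) : D × Fin 3) = (t, 0) ↔ False := by simp
theorem p21 (s t : D) : ((s, 2) : D × Fin 3) = (t, 1) ↔ False := by simp
theorem pii (s t : D) (i : Fin 3) : ((s, i) : D × Fin 3) = (t, i) ↔ s = t := by simp

theorem cases3 {Q : D × Fin 3 → Prop} (h0 : ∀ s, Q (s, 0)) (h1 : ∀ s, Q (s, 1))
    (h2 : ∀ s, Q (s, 2)) (s : D × Fin 3) : Q s := by
  obtain ⟨s, i⟩ := s
  fin_cases i
  · exact h0 s
  · exact h1 s
  · exact h2 s

theorem pf_TriEdges : StmtTriEdges := by
  intro V D _ P
  have hφα : ∀ d, P.o (P.φ d) ≠ P.o d := fun d => by rw [P.oφ]; exact P.noloop d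
  refine ⟨?_, ?_, ?_⟩
  · refine cases3 (fun s => ?_) (fun s => ?_) (fun s => ?_)
    · rw [tv0, Finset.card_eq_three]
      exact ⟨_, _, _, fun h => P.noloop s ((V_inj P _ _).1 h).symm, VD P _ _, VD P _ _, rfl⟩
    · rw [tv1, Finset.card_eq_three]
      exact ⟨_, _, _, VD P _ _, VD P _ _, fun h => phi_ne P s ((D_inj P _ _).1 h), rfl⟩
    · rw [tv2, Finset.card_eq_three]
      exact ⟨_, _, _, fun h => phi_ne P s ((D_inj P _ _).1 h).symm, DF P _ _, DF P _ _, rfl⟩
  · intro u v t t' h
    cases h with
    | main d =>
      refine ⟨fun h => ?_, fun h => P.noloop d ((V_inj P _ _).1 h).symm, ?_⟩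
      · rw [pii] at h
        have := P.noloop d
        rw [← h] at this
        exact this rfl
      · refine cases3 (fun s => ?_) (fun s => ?_) (fun s => ?_)
        · rw [mV0, mV0, pii, pii]
          constructor
          · rintro ⟨h1 | h1, h2 | h2⟩
            · exact absurd (h2.trans h1.symm) (P.noloop d)
            · exact Or.inl (P.simple d s h1 h2).symm
            · have h3 : P.o (P.α d) = P.o (P.α (P.α s)) := by rw [P.αα]; exact h2
              have := P.simple d (P.α s) h1 h3
              right
              rw [this, P.αα]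
            · exact absurd (h2.trans h1.symm) (P.noloop d)
          · rintro (rfl | rfl)
            · exact ⟨Or.inl rfl, Or.inr rfl⟩
            · rw [P.αα]
              exact ⟨Or.inr rfl, Or.inl rfl⟩
        · rw [mV1, mV1, p10, p10]
          constructor
          · rintro ⟨h1, h2⟩
            exact absurd (h2.trans h1.symm) (P.noloop d)
          · rintro (h | h) <;> exact h.elim
        · rw [p20, p20]
          constructor
          · rintro ⟨h1, h2⟩
            exact absurd h1 (mV2 P _ _)
          · rintro (h | h) <;> exact h.elim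
    | spoke d =>
      refine ⟨fun h => (p10 _ _).1 h, VD P _ _, ?_⟩
      refine cases3 (fun s => ?_) (fun s => ?_) (fun s => ?_)
      · rw [mV0, mD0, p01, pii]
        constructor
        · rintro ⟨-, h⟩
          right
          rw [h, Equiv.symm_apply_apply]
        · rintro (h | h)
          · exact h.elim
          · have h1 : P.φ s = d := by rw [h, Equiv.apply_symm_apply]
            refine ⟨Or.inr ?_, h1.symm⟩
            rw [← P.oφ, h1]
      · rw [mV1, mD1, pii, p10]
        constructor
        · rintro ⟨h1, h2 | h2⟩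
          · rw [h2] at h1
            exact absurd h1 (hφα s)
          · exact Or.inl h2.symm
        · rintro (h | h)
          · subst h
            exact ⟨rfl, Or.inr rfl⟩
          · exact h.elim
      · rw [p21, p20]
        constructor
        · rintro ⟨h1, h2⟩
          exact absurd h1 (mV2 P _ _)
        · rintro (h | h) <;> exact h.elim
    | diag d =>
      refine ⟨fun h => (p01 _ _).1 h, VD P _ _, ?_⟩
      refine cases3 (fun s => ?_) (fun s => ?_) (fun s => ?_)
      · rw [mV0, mD0, p01, pii]
        constructor
        · rintro ⟨-, h⟩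
          exact Or.inl (P.φ.injective h).symm
        · rintro (h | h)
          · subst h
            exact ⟨Or.inl rfl, rfl⟩
          · exact h.elim
      · rw [mV1, mD1, pii, p10]
        constructor
        · rintro ⟨h1, h2 | h2⟩
          · exact Or.inr (P.φ.injective h2).symm
          · rw [← h2] at h1
            exact absurd h1.symm (hφα d)
        · rintro (h | h)
          · exact h.elim
          · subst h
            exact ⟨rfl, Or.inl rfl⟩
      · rw [p21, p20]
        constructor
        · rintro ⟨h1, h2⟩
          exact absurd h1 (mV2 P _ _)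
        · rintro (h | h) <;> exact h.elim
    | ring d =>
      refine ⟨fun h => (p12 _ _).1 h, fun h => phi_ne P d ((D_inj P _ _).1 h).symm, ?_⟩
      refine cases3 (fun s => ?_) (fun s => ?_) (fun s => ?_)
      · rw [mD0, mD0, p01, p02]
        constructor
        · rintro ⟨h1, h2⟩
          exact absurd (h2.trans h1.symm) (phi_ne P d)
        · rintro (h | h) <;> exact h.elim
      · rw [mD1, mD1, pii, p12]
        constructor
        · rintro ⟨h1 | h1, h2 | h2⟩
          · exact absurd (h2.trans h1.symm) (phi_ne P d)
          · rw [← h2] at h1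
            exact absurd h1.symm (P.φφ d)
          · exact Or.inl h1.symm
          · exact Or.inl h1.symm
        · rintro (h | h)
          · subst h
            exact ⟨Or.inr rfl, Or.inl rfl⟩
          · exact h.elim
      · rw [mD2, mD2, pii, p21]
        constructor
        · rintro ⟨h1 | h1, h2 | h2⟩
          · exact Or.inr h1.symm
          · exact Or.inr h1.symm
          · rw [← h2] at h1
            exact absurd h1.symm (P.φφ d)
          · exact absurd (h2.trans h1.symm) (phi_ne P d)
        · rintro (h | h)
          · exact h.elim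
          · subst h
            exact ⟨Or.inl rfl, Or.inr rfl⟩
    | inner d =>
      refine ⟨fun h => ?_, DF P _ _, ?_⟩
      · rw [pii] at h
        have := phi_ne P d
        apply this
        conv_lhs => rw [h]
        rw [Equiv.apply_symm_apply]
      · refine cases3 (fun s => ?_) (fun s => ?_) (fun s => ?_)
        · rw [p02, p02]
          constructor
          · rintro ⟨h1, h2⟩
            exact absurd h2 (mF0 P _ _)
          · rintro (h | h) <;> exact h.elim
        · rw [p12, p12]
          constructor
          · rintro ⟨h1, h2⟩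
            exact absurd h2 (mF1 P _ _)
          · rintro (h | h) <;> exact h.elim
        · rw [mD2, mF2, pii, pii]
          constructor
          · rintro ⟨h1 | h1, -⟩
            · exact Or.inl h1.symm
            · right
              rw [h1, Equiv.symm_apply_apply]
          · rintro (h | h)
            · subst h
              exact ⟨Or.inl rfl, Equiv.Perm.SameCycle.refl _ _⟩
            · have h1 : P.φ s = d := by rw [h, Equiv.apply_symm_apply]
              refine ⟨Or.inr h1.symm, ?_⟩
              rw [← h1]
              exact Equiv.Perm.sameCycle_apply_left.2 (Equiv.Perm.SameCycle.refl _ _)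
  · have hF : ∀ d, wF P (P.φ d) = wF P d := fun d =>
      (F_eq P _ _).2 (Equiv.Perm.sameCycle_apply_left.2 (Equiv.Perm.SameCycle.refl _ _))
    have hsp : ∀ d, ∃ t t', TE P (wV P (P.o (P.α d))) (wD P (P.φ d)) t t' := by
      intro d
      rw [← P.oφ]
      exact ⟨_, _, TE.spoke (P.φ d)⟩
    have hin : ∀ d, ∃ t t', TE P (wD P (P.φ d)) (wF P d) t t' := by
      intro d
      rw [← hF]
      exact ⟨_, _, TE.inner (P.φ d)⟩
    intro u v s
    revert s
    refine cases3 (fun s => ?_) (fun s => ?_) (fun s => ?_)
    · intro huv hu hv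
      rw [tv0, Finset.mem_insert, Finset.mem_insert, Finset.mem_singleton] at hu hv
      rcases hu with rfl | rfl | rfl <;> rcases hv with rfl | rfl | rfl
      · exact absurd rfl huv
      · exact ⟨_, _, Or.inl (TE.main s)⟩
      · exact ⟨_, _, Or.inl (TE.diag s)⟩
      · exact ⟨_, _, Or.inr (TE.main s)⟩
      · exact absurd rfl huv
      · obtain ⟨t, t', h⟩ := hsp s
        exact ⟨t, t', Or.inl h⟩
      · exact ⟨_, _, Or.inr (TE.diag s)⟩
      · obtain ⟨t, t', h⟩ := hsp s
        exact ⟨t, t', Or.inr h⟩
      · exact absurd rfl huv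
    · intro huv hu hv
      rw [tv1, Finset.mem_insert, Finset.mem_insert, Finset.mem_singleton] at hu hv
      rcases hu with rfl | rfl | rfl <;> rcases hv with rfl | rfl | rfl
      · exact absurd rfl huv
      · exact ⟨_, _, Or.inl (TE.diag s)⟩
      · exact ⟨_, _, Or.inl (TE.spoke s)⟩
      · exact ⟨_, _, Or.inr (TE.diag s)⟩
      · exact absurd rfl huv
      · exact ⟨_, _, Or.inr (TE.ring s)⟩
      · exact ⟨_, _, Or.inr (TE.spoke s)⟩
      · exact ⟨_, _, Or.inl (TE.ring s)⟩
      · exact absurd rfl huv
    · intro huv hu hv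
      rw [tv2, Finset.mem_insert, Finset.mem_insert, Finset.mem_singleton] at hu hv
      rcases hu with rfl | rfl | rfl <;> rcases hv with rfl | rfl | rfl
      · exact absurd rfl huv
      · exact ⟨_, _, Or.inl (TE.ring s)⟩
      · exact ⟨_, _, Or.inl (TE.inner s)⟩
      · exact ⟨_, _, Or.inr (TE.ring s)⟩
      · exact absurd rfl huv
      · obtain ⟨t, t', h⟩ := hin s
        exact ⟨t, t', Or.inl h⟩
      · exact ⟨_, _, Or.inr (TE.inner s)⟩
      · obtain ⟨t, t', h⟩ := hin s
        exact ⟨t, t', Or.inr h⟩
      · exact absurd rfl huv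

end

end Pool.Agent.Helper10.Stk
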